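import Pool.Agent.W23.PP.Defs
import Pool.Agent.W82.KT.PBK
import Pool.Agent.W655.PL.PBX

/-! PP-PBP (owner helper23): pointwise bounds for the values of polynomial-like functions.
Adapted from `Pool.Agent.W216.KS.PBXK` and `Pool.Agent.W82.KT.PBK`. -/

set_option autoImplicit false

namespace Pool.Agent.W432.PP

open Finset
open Pool.Agent.H442R2
open Pool.Agent.H442R2.KF
open Pool.Agent.W23.DC
open Pool.Agent.W23.SG
open Pool.Agent.W23.PL
open Pool.Agent.W23.KT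
open Pool.Agent.W23.PP
open Pool.Agent.W82.KT (rd_card_le kw_le kw_nonneg)

/-- size of the values -/
theorem phi_le {k M N : ℕ} (hN : (1 : ℝ) ≤ N) {φ : ℤ → ℤ} (hφ : Sy k M N φ) (n : ℤ) :
    (((φ n).natAbs : ℕ) : ℝ) ≤ (N : ℝ) ^ (M + k) * (1 + |(n : ℝ)| / N) ^ k := by
  have hN0 : (0 : ℝ) < N := by linarith
  rw [Nat.cast_natAbs, Int.cast_abs]
  have h1 : 1 + |(n : ℝ)| ≤ N * (1 + |(n : ℝ)| / N) := by
    rw [mul_add, mul_one, mul_div_cancel₀ _ hN0.ne']
    linarith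
  calc |(φ n : ℝ)| ≤ (N : ℝ) ^ M * (1 + |(n : ℝ)|) ^ k := hφ.gr n
    _ ≤ (N : ℝ) ^ M * (N * (1 + |(n : ℝ)| / N)) ^ k := by
        have h2 : (0 : ℝ) ≤ 1 + |(n : ℝ)| := by positivity
        have h3 : (0 : ℝ) ≤ (N : ℝ) ^ M := by positivity
        exact mul_le_mul_of_nonneg_left (pow_le_pow_left₀ h2 h1 k) h3
    _ = (N : ℝ) ^ (M + k) * (1 + |(n : ℝ)| / N) ^ k := by
        rw [mul_pow, pow_add]
        ring

theorem rh_nonneg (φ : ℤ → ℤ) (d : ℕ) : 0 ≤ rh φ d := by unfold rh; positivity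

theorem abs_dP_le (φ : ℤ → ℤ) (d : ℕ) (n : ℤ) :
    |dP φ d n| ≤ (if (d : ℤ) ∣ φ n then 1 else 0) + rh φ d := by
  unfold dP
  have h1 := rh_nonneg φ d
  split_ifs with h
  · rw [abs_le]; constructor <;> linarith
  · rw [abs_le]; constructor <;> linarith

theorem abs_RP_le (hRTP : St_RTP) {k M : ℕ} {ε : ℝ} (hε : 0 < ε) {N X : ℕ} (hN2 : 2 ≤ N)
    (hX : X ≤ N) {φ : ℤ → ℤ} (hφ : Sy k M N φ) (c : ℕ → ℝ) (hc : CofP ((N : ℝ) ^ ε) X c)
    (n : ℤ) :
    |RP φ c X n| ≤ ((BX.rd ((N : ℝ) ^ ε) X (φ n)).card : ℝ) +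
      ((k : ℝ) + 1) ^ (1 / ε) * ∑ d ∈ BX.roughs ((N : ℝ) ^ ε) X, 1 / (d : ℝ) := by
  classical
  obtain ⟨C₁, hC₁⟩ : ∃ C₁ : ℝ, C₁ = ((k : ℝ) + 1) ^ (1 / ε) := ⟨_, rfl⟩
  have hC₁0 : 0 ≤ C₁ := by rw [hC₁]; positivity
  rw [← hC₁]
  unfold RP
  have h1 : ∀ d ∈ Icc 1 X, |c d * dP φ d n| ≤
      if BX.Rough ((N : ℝ) ^ ε) d then (if (d : ℤ) ∣ φ n then 1 else 0) + C₁ * (1 / (d : ℝ))
        else 0 := by
    intro d hd
    by_cases h0 : c d = 0
    · rw [h0, zero_mul, abs_zero]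
      split_ifs <;> positivity
    · obtain ⟨hm1, hm2, hm3, hm4⟩ := hc.supp d h0
      have hR : BX.Rough ((N : ℝ) ^ ε) d := ⟨hm1, hm4⟩
      rw [if_pos hR, abs_mul]
      have h2 := abs_dP_le φ d n
      have h3 : kw k d ≤ C₁ := by
        rw [hC₁]
        exact kw_le k hε hN2 hm1.le (hm2.trans hX) hR.2
      have h5 : (nr φ d : ℝ) ≤ C₁ := (((hRTP.2.2 k M N φ hφ).2 d hm3).2).trans h3
      have h4 : rh φ d ≤ C₁ * (1 / (d : ℝ)) := by
        unfold rh
        rw [div_eq_mul_one_div]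
        exact mul_le_mul_of_nonneg_right h5 (by positivity)
      calc |c d| * |dP φ d n| ≤ 1 * ((if (d : ℤ) ∣ φ n then 1 else 0) + rh φ d) :=
            mul_le_mul (hc.bd d) h2 (abs_nonneg _) zero_le_one
        _ ≤ _ := by rw [one_mul]; linarith
  calc |∑ d ∈ Icc 1 X, c d * dP φ d n| ≤ ∑ d ∈ Icc 1 X, |c d * dP φ d n| :=
        abs_sum_le_sum_abs _ _
    _ ≤ ∑ d ∈ Icc 1 X, if BX.Rough ((N : ℝ) ^ ε) d then
        (if (d : ℤ) ∣ φ n then 1 else 0) + C₁ * (1 / (d : ℝ)) else 0 :=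
        sum_le_sum h1
    _ = ∑ d ∈ BX.roughs ((N : ℝ) ^ ε) X, ((if (d : ℤ) ∣ φ n then 1 else 0) +
        C₁ * (1 / (d : ℝ))) := by
        unfold BX.roughs
        rw [sum_filter]
    _ = _ := by
        rw [sum_add_distrib, ← mul_sum]
        congr 1
        unfold BX.rd
        rw [sum_boole]

theorem PBP (hRTP : St_RTP) : St_PBP := by
  intro k M
  obtain ⟨C, hC0, hRA⟩ := Pool.Agent.W655.PL.Pbx.RA'
  have hk1 : (0 : ℝ) ≤ k := Nat.cast_nonneg k
  have hlk : 0 ≤ Real.log ((k : ℝ) + 1) := Real.log_nonneg (by linarith)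
  set G : ℝ := ((M + k : ℕ) : ℝ) + Real.log ((k : ℝ) + 1) with hG
  have hG0 : 0 ≤ G := by positivity
  refine ⟨G + 4 * C + 6, by positivity, ?_⟩
  intro ε hε hε1
  refine ⟨max ⌈Real.exp (4 * k / ε)⌉₊ 2, ?_⟩
  intro N X hN hX φ hφ
  have hNe : Real.exp (4 * k / ε) ≤ (N : ℝ) := Nat.ceil_le.mp ((le_max_left _ _).trans hN)
  have hN2 : 2 ≤ N := (le_max_right _ _).trans hN
  have hN1 : (1 : ℝ) ≤ N := by exact_mod_cast (by omega : 1 ≤ N)
  have hBn : ∀ n : ℤ, (1 : ℝ) ≤ 1 + |(n : ℝ)| / N := by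
    intro n
    have : 0 ≤ |(n : ℝ)| / N := by positivity
    linarith
  have hBr' : ∀ n : ℤ, (1 : ℝ) ≤ (1 + |(n : ℝ)| / N) ^ (1 / 4 : ℝ) := fun n =>
    Real.one_le_rpow (hBn n) (by norm_num)
  have h1e : 1 ≤ 1 / ε := by rw [le_div_iff₀ hε]; linarith
  have hK2 : (4 : ℝ) ^ (1 / ε) ≤ Real.exp ((4 * C + 4) / ε) := by
    rw [Real.rpow_def_of_pos (by norm_num)]
    apply Real.exp_le_exp.2
    have h4 : Real.log 4 ≤ 4 := by
      have := Real.log_le_sub_one_of_pos (show (0 : ℝ) < 4 by norm_num)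
      linarith
    rw [mul_one_div]
    apply div_le_div_of_nonneg_right _ hε.le
    linarith
  have hK3 : Real.exp (2 * (2 * C + |Real.log (ε / 2)|)) ≤ Real.exp ((4 * C + 4) / ε) := by
    apply Real.exp_le_exp.2
    have hlog : |Real.log (ε / 2)| ≤ 2 / ε := by
      have h1 : Real.log (ε / 2) ≤ 0 := Real.log_nonpos (by positivity) (by linarith)
      rw [abs_of_nonpos h1, ← Real.log_inv, inv_div]
      have := Real.log_le_sub_one_of_pos (show (0 : ℝ) < 2 / ε by positivity)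
      linarith
    have hCe : C ≤ C / ε := by
      rw [le_div_iff₀ hε]
      nlinarith
    have : (4 * C + 4) / ε = 4 * (C / ε) + 2 * (2 / ε) := by ring
    rw [this]
    linarith
  set K := Real.exp ((4 * C + 4) / ε) with hKdef
  have hKpos : 0 < K := Real.exp_pos _
  have hK1 : 1 ≤ K := Real.one_le_exp (by positivity)
  have h5 : ∑ d ∈ BX.roughs ((N : ℝ) ^ ε) X, 1 / (d : ℝ) ≤ 2 * K :=
    (sum_le_sum_of_subset_of_nonneg (BX.TaskPB.roughs_mono _ hX) fun _ _ _ => by positivity).trans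
      ((hRA ε hε N hN2).trans (by linarith))
  have hrd : ∀ n : ℤ, φ n ≠ 0 → ((BX.rd ((N : ℝ) ^ ε) X (φ n)).card : ℝ) ≤
      Real.exp (((M + k : ℕ) : ℝ) / ε) * (1 + |(n : ℝ)| / N) ^ (1 / 4 : ℝ) := fun n hn =>
    rd_card_le hε X (M + k) k hN2 hNe (hBn n) hn (phi_le hN1 hφ n)
  have e1 : Real.exp (((M + k : ℕ) : ℝ) / ε) ≤ Real.exp (G / ε) := by
    apply Real.exp_le_exp.2
    apply div_le_div_of_nonneg_right _ hε.le
    linarith
  have e2 : ((k : ℝ) + 1) ^ (1 / ε) ≤ Real.exp (G / ε) := by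
    rw [Real.rpow_def_of_pos (by linarith)]
    apply Real.exp_le_exp.2
    rw [mul_one_div]
    apply div_le_div_of_nonneg_right _ hε.le
    have : (0 : ℝ) ≤ ((M + k : ℕ) : ℝ) := Nat.cast_nonneg _
    linarith
  have hGe : 0 < Real.exp (G / ε) := Real.exp_pos _
  have hfin : 3 * (Real.exp (G / ε) * K) ≤ Real.exp ((G + 4 * C + 6) / ε) := by
    have h3 : (3 : ℝ) ≤ Real.exp (2 / ε) := by
      have h5 : 2 ≤ 2 / ε := by
        rw [le_div_iff₀ hε]; linarith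
      have h6 := Real.add_one_le_exp (2 / ε)
      linarith
    calc 3 * (Real.exp (G / ε) * K) ≤ Real.exp (2 / ε) * (Real.exp (G / ε) * K) := by
          gcongr
      _ = Real.exp ((G + 4 * C + 6) / ε) := by
          rw [hKdef, ← Real.exp_add, ← Real.exp_add]; congr 1; ring
  refine ⟨fun n hn => ?_, fun c hc n => ?_⟩
  · refine (hrd n hn).trans ?_
    have h6 : Real.exp (((M + k : ℕ) : ℝ) / ε) ≤ Real.exp ((G + 4 * C + 6) / ε) := by
      have h7 : Real.exp (G / ε) ≤ Real.exp ((G + 4 * C + 6) / ε) := by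
        apply Real.exp_le_exp.2
        apply div_le_div_of_nonneg_right _ hε.le
        linarith
      exact e1.trans h7
    exact mul_le_mul_of_nonneg_right h6 (by linarith [hBr' n])
  unfold rP
  split_ifs with hn
  · rw [abs_zero]
    positivity
  · have h1 := hrd n hn
    have hBr := hBr' n
    have h4 := abs_RP_le hRTP hε hN2 hX hφ c hc n
    set B := (1 + |(n : ℝ)| / N) ^ (1 / 4 : ℝ) with hBdef
    set E := Real.exp (G / ε) with hE
    have hEK : 0 < E * K := by positivity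
    calc |RP φ c X n| ≤ _ := h4
      _ ≤ E * B + E * (2 * K) := by
          refine add_le_add (h1.trans ?_) ?_
          · exact mul_le_mul_of_nonneg_right e1 (by linarith)
          · exact mul_le_mul e2 h5 (sum_nonneg fun _ _ => by positivity) hGe.le
      _ ≤ E * K * B + E * (2 * K) * B := by
          refine add_le_add ?_ ?_
          · apply mul_le_mul_of_nonneg_right _ (by linarith)
            nlinarith
          · nlinarith
      _ = 3 * (E * K) * B := by ring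
      _ ≤ Real.exp ((G + 4 * C + 6) / ε) * B := by
          apply mul_le_mul_of_nonneg_right hfin (by linarith)

end Pool.Agent.W432.PP
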